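import Pool.Agent.H20.RT.Stmts

/-!
Row CAD of board rt.
-/

set_option autoImplicit false

namespace Pool.RT

theorem cnt_rec_h1 (d n : ℕ) (hd : 1 ≤ d) :
    cnt d n = (if n % 10 = d then 1 else 0) + cnt d (n / 10) := by
  unfold cnt
  rcases Nat.eq_zero_or_pos n with h | h
  · subst h
    have : ¬ (0 % 10 = d) := by omega
    simp [this]
  · rw [Nat.digits_def' (by norm_num) h, List.count_cons]
    by_cases h1 : n % 10 = d
    · simp [h1, Nat.add_comm]
    · simp [h1]

theorem CAD_thm : CADStmt := by
  intro d a b k hd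
  induction k generalizing a with
  | zero =>
    intro ha
    have : a = 0 := by simpa using ha
    subst this
    simp [cnt]
  | succ k ih =>
    intro ha
    have e1 : a + 10 ^ (k + 1) * b = a + 10 * (10 ^ k * b) := by ring
    have e2 : (a + 10 ^ (k + 1) * b) % 10 = a % 10 := by rw [e1]; omega
    have e3 : (a + 10 ^ (k + 1) * b) / 10 = a / 10 + 10 ^ k * b := by rw [e1]; omega
    have ha' : a / 10 < 10 ^ k := by
      rw [pow_succ] at ha
      omega
    rw [cnt_rec_h1 d (a + 10 ^ (k + 1) * b) hd, e2, e3, ih (a / 10) ha', cnt_rec_h1 d a hd]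
    omega

end Pool.RT
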