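import Pool.Agent.H1.RT.CAD

/-!
Row DCS of board rt.
-/

set_option autoImplicit false

namespace Pool.RT

theorem DCS_thm : DCSStmt := by
  refine ⟨?_, ?_, ?_, ?_⟩
  · intro h
    induction h with
    | zero =>
      intro d n hd hn
      rw [cnt_rec_h1 d n hd]
      have : n / 10 = 0 := by
        have : n < 2 := by simpa using hn
        omega
      rw [this]
      simp only [dc, cnt, Nat.digits_zero, List.count_nil]
      split_ifs <;> omega
    | succ h ih =>
      intro d n hd hn
      rw [cnt_rec_h1 d n hd]
      have h1 : n / 10 < 2 * 10 ^ h := by
        rw [pow_succ] at hn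
        omega
      have h2 := ih d (n / 10) hd h1
      simp only [dc]
      omega
  · intro h
    induction h with
    | zero =>
      intro d n hd
      simp [dc]
    | succ h ih =>
      intro d n hd
      rw [cnt_rec_h1 d n hd]
      have h2 := ih d (n / 10) hd
      simp only [dc]
      omega
  · intro h
    induction h with
    | zero =>
      intro n
      simp [dc]
    | succ h ih =>
      intro n
      have h2 := ih (n / 10)
      have h3 : (if n % 10 = 0 then 1 else 0) + (if n % 10 = 1 then 1 else 0) +
          (if n % 10 = 2 then 1 else 0) + (if n % 10 = 3 then 1 else 0) +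
          (if n % 10 = 4 then 1 else 0) + (if n % 10 = 5 then 1 else 0) +
          (if n % 10 = 6 then 1 else 0) + (if n % 10 = 7 then 1 else 0) +
          (if n % 10 = 8 then 1 else 0) + (if n % 10 = 9 then 1 else 0) = 1 := by
        have h4 : n % 10 < 10 := Nat.mod_lt _ (by norm_num)
        generalize n % 10 = m at h4
        interval_cases m <;> simp
      simp only [dc]
      omega
  · intro h
    induction h with
    | zero =>
      intro d n
      simp [dc]
    | succ h ih =>
      intro d n
      have e1 : n % 10 ^ (h + 1) % 10 = n % 10 := by
        rw [pow_succ, Nat.mul_comm]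
        exact Nat.mod_mul_right_mod n 10 (10 ^ h)
      have e2 : n % 10 ^ (h + 1) / 10 = (n / 10) % 10 ^ h := by
        rw [pow_succ, Nat.mul_comm]
        exact Nat.mod_mul_right_div_self n 10 (10 ^ h)
      simp only [dc]
      rw [e1, e2, ih d (n / 10)]

end Pool.RT
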